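import Pool.Agent.KS6_49.NilI.B

namespace Pool.Agent.KS6_49.NilI
open Function Topology Filter
open scoped commutatorElement Pointwise

lemma three {G : Type} [Group G] {A B C : Subgroup G} (N : Subgroup G) [N.Normal]
    (h1 : ⁅⁅B, C⁆, A⁆ ≤ N) (h2 : ⁅⁅C, A⁆, B⁆ ≤ N) : ⁅⁅A, B⁆, C⁆ ≤ N := by
  rw [← QuotientGroup.ker_mk' N, ← Subgroup.map_eq_bot_iff, Subgroup.map_commutator,
    Subgroup.map_commutator] at h1 h2 ⊢
  exact Subgroup.commutator_commutator_eq_bot_of_rotate h1 h2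

lemma lcs_comm {G : Type} [Group G] (j : ℕ) : ∀ i, ⁅(⊤ : Subgroup G).lowerCentralSeries i,
    (⊤ : Subgroup G).lowerCentralSeries j⁆ ≤ (⊤ : Subgroup G).lowerCentralSeries (i + j + 1) := by
  induction j with
  | zero => exact fun i => le_rfl
  | succ j ih =>
    intro i
    rw [Subgroup.commutator_comm, Subgroup.lowerCentralSeries_succ _ j]
    refine three _ ?_ ?_
    · rw [Subgroup.commutator_comm ⊤, ← Subgroup.lowerCentralSeries_succ,
        show i + (j + 1) + 1 = i + 1 + j + 1 by ring]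
      exact ih _
    · exact Subgroup.commutator_mono (ih i) le_rfl

lemma lift_compact {Y Z : Type} [TopologicalSpace Y] [TopologicalSpace Z] [LocallyCompactSpace Y]
    {f : Y → Z} (hf : IsOpenMap f) {C : Set Z} (hC : IsCompact C) (h : C ⊆ Set.range f) :
    ∃ K, IsCompact K ∧ C ⊆ f '' K := by
  choose U hU hy using fun y : Y => exists_compact_mem_nhds y
  obtain ⟨t, ht⟩ := hC.elim_finite_subcover (fun y => f '' interior (U y))
    (fun y => hf _ isOpen_interior) (fun z hz => by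
      obtain ⟨y, rfl⟩ := h hz
      exact Set.mem_iUnion.2 ⟨y, y, mem_interior_iff_mem_nhds.2 (hy y), rfl⟩)
  refine ⟨⋃ y ∈ t, U y, t.isCompact_biUnion (fun y _ => hU y), fun z hz => ?_⟩
  obtain ⟨y, h1, w, h2, rfl⟩ := Set.mem_iUnion₂.1 (ht hz)
  exact ⟨w, Set.mem_iUnion₂.2 ⟨y, h1, interior_subset h2⟩, rfl⟩

variable {G : Type} [Group G] [TopologicalSpace G] [IsTopologicalGroup G]

variable (G) in
def L (i : ℕ) : Subgroup G := ((⊤ : Subgroup G).lowerCentralSeries i).topologicalClosure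

instance (i : ℕ) : (L G i).Normal := Subgroup.is_normal_topologicalClosure _

instance (i : ℕ) : IsClosed (L G i : Set G) := Subgroup.isClosed_topologicalClosure _

lemma L_comm {i j : ℕ} {a b : G} (ha : a ∈ L G i) (hb : b ∈ L G j) : ⁅a, b⁆ ∈ L G (i + j + 1) :=
  map_mem_closure₂ (f := fun a b : G => ⁅a, b⁆)
    (by simp only [commutatorElement_def]; fun_prop) ha hb
    (fun _ h1 _ h2 => lcs_comm j i (Subgroup.commutator_mem_commutator h1 h2))

lemma L_zero (a : G) : a ∈ L G 0 := Subgroup.le_topologicalClosure _ (Subgroup.mem_top a)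

lemma L_comm0 {i : ℕ} {a : G} (ha : a ∈ L G i) (y : G) : ⁅a, y⁆ ∈ L G (i + 1) := by
  have := L_comm ha (L_zero y)
  rwa [add_zero] at this

lemma L_anti (i : ℕ) : L G (i + 1) ≤ L G i :=
  Subgroup.topologicalClosure_mono (Subgroup.lowerCentralSeries_antitone _ (Nat.le_succ i))

lemma L_central (i : ℕ) {a : G} (ha : a ∈ L G (i + 1)) :
    (a : G ⧸ L G (i + 2)) ∈ Subgroup.center (G ⧸ L G (i + 2)) := by
  rw [Subgroup.mem_center_iff]
  intro y
  obtain ⟨y, rfl⟩ := QuotientGroup.mk_surjective y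
  have := (QuotientGroup.eq_one_iff _).2 (L_comm0 ha y)
  exact (commutatorElement_eq_one_iff_mul_comm.1 this).symm

def bb (i : ℕ) (a : L G i) (y : G) : Subgroup.center (G ⧸ L G (i + 2)) :=
  ⟨(⁅a.1, y⁆ : G), L_central i (L_comm0 a.2 y)⟩

open scoped IsMulCommutative in
def bh (i : ℕ) : L G i →* G →* Subgroup.center (G ⧸ L G (i + 2)) :=
  MonoidHom.mk' (fun a => MonoidHom.mk' (bb i a) (fun y z => Subtype.ext (by
    have := Subgroup.mem_center_iff.1 (bb i a z).2 y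
    simp only [bb] at this
    simp only [bb, commutatorElement_mul_right_eq_mul_conj, QuotientGroup.mk_mul,
      QuotientGroup.mk_inv, Subgroup.coe_mul]
    rw [mul_assoc _ (y : G ⧸ L G (i + 2)), this, mul_assoc, mul_inv_cancel_right])))
    (fun a c => MonoidHom.ext fun y => Subtype.ext (by
      have := Subgroup.mem_center_iff.1 (bb i c y).2 a.1
      have h2 := Subgroup.mem_center_iff.1 (bb i c y).2 (bb i a y).1
      simp only [bb] at this h2
      show (((⁅a.1 * c.1, y⁆ : G)) : G ⧸ L G (i + 2)) =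
        ((⁅a.1, y⁆ : G) : G ⧸ L G (i + 2)) * ((⁅c.1, y⁆ : G) : G ⧸ L G (i + 2))
      simp only [commutatorElement_mul_left_eq_conj_mul, QuotientGroup.mk_mul,
        QuotientGroup.mk_inv]
      rw [this, mul_inv_cancel_right, h2]))

def WR (Γ : Subgroup G) (i : ℕ) : Prop :=
  ∃ K : Set G, IsCompact K ∧ K ⊆ L G i ∧ ∃ S : Set G, S.Finite ∧ S ⊆ Γ ∧ S ⊆ L G i ∧
    ∀ a ∈ L G i, ∃ κ ∈ K, ∃ l ∈ Subgroup.closure S, l⁻¹ * κ⁻¹ * a ∈ L G (i + 1)

open scoped IsMulCommutative in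
lemma wr_succ [T2Space G] [LocallyCompactSpace G] (Γ : Subgroup G)
    (KB : Set G) (hKB : IsCompact KB) (SB : Set G) (hSB : SB.Finite) (hΓ : SB ⊆ Γ)
    (hB : ∀ y, ∃ κ ∈ KB, ∃ l ∈ Subgroup.closure SB, y = κ * l)
    (D : Subgroup G) (hD : ∀ m : ℕ, 1 ≤ m → D ≤ Subgroup.closure (Set.range fun y : G => y ^ m))
    (g : G) (hg : ∀ T : Subgroup G, D ≤ T → g ∈ T → T = ⊤) (i : ℕ) (h : WR Γ i) :
    WR Γ (i + 1) := by
  obtain ⟨K, hK, sK, S, hS, sΓ, sS, e⟩ := h
  have hc : IsClosed (Subgroup.center (G ⧸ L G (i + 2)) : Set (G ⧸ L G (i + 2))) := by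
    rw [Subgroup.coe_center, ← Set.centralizer_univ]
    exact Set.isClosed_centralizer _
  haveI : LocallyCompactSpace (Subgroup.center (G ⧸ L G (i + 2))) := hc.locallyCompactSpace
  have hLc : IsClosed (L G i : Set G) := inferInstance
  obtain ⟨V, cV, hV, C, hC, eC⟩ := bil (bh (G := G) i) (by
      refine Continuous.subtype_mk (QuotientGroup.continuous_mk.comp ?_) _
      simp only [commutatorElement_def]; fun_prop)
    (Subtype.val ⁻¹' K) (hLc.isClosedEmbedding_subtypeVal.isCompact_preimage hK)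
    (Subtype.val ⁻¹' S) (hS.preimage Subtype.val_injective.injOn) (by
      rintro ⟨a, ha⟩
      obtain ⟨κ, hκ, l, hl, h⟩ := e a ha
      have hl' : l ∈ L G i := (Subgroup.closure_le _).2 sS hl
      refine ⟨⟨κ, sK hκ⟩, hκ, ⟨l, hl'⟩, ?_, ?_⟩
      · have : l ∈ (Subgroup.closure (Subtype.val ⁻¹' S : Set (L G i))).map (L G i).subtype :=
          (Subgroup.closure_le (Subgroup.map _ _)).2
            (fun s hs => ⟨⟨s, sS hs⟩, Subgroup.subset_closure hs, rfl⟩) hl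
        obtain ⟨l', h1, rfl⟩ := this
        exact h1
      · have h1 : bh i ⟨_, L_anti i h⟩ = 1 := MonoidHom.ext fun y => Subtype.ext
          ((QuotientGroup.eq_one_iff _).2 (L_comm0 h y))
        have h2 : (⟨a, ha⟩ : L G i) = ⟨κ, sK hκ⟩ * ⟨l, hl'⟩ * ⟨_, L_anti i h⟩ := by
          ext; simp [mul_assoc]
        rw [h2, map_mul, map_mul, h1, mul_one])
    KB hKB SB hSB hB D hD g hg
  obtain ⟨C', hC', eC'⟩ := lift_compact QuotientGroup.isOpenMap_coe
    (hC.image continuous_subtype_val) (fun z _ => QuotientGroup.mk_surjective z)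
  let S' := Set.image2 (fun s t : G => ⁅s, t⁆) S SB
  have sS' : S' ⊆ L G (i + 1) := by
    rintro _ ⟨s, hs, t, -, rfl⟩
    exact L_comm0 (sS hs) t
  refine ⟨C' ∩ L G (i + 1), hC'.inter_right inferInstance, Set.inter_subset_right, S',
    hS.image2 _ hSB, ?_, sS', fun a ha => ?_⟩
  · rintro _ ⟨s, hs, t, ht, rfl⟩
    exact mul_mem (mul_mem (mul_mem (sΓ hs) (hΓ ht)) (inv_mem (sΓ hs))) (inv_mem (hΓ ht))
  · have h1 : L G (i + 1) ≤ (V.map (Subgroup.center _).subtype).comap (QuotientGroup.mk' (L G (i + 2))) := by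
      refine Subgroup.topologicalClosure_minimal _ (Subgroup.commutator_le.2 fun x hx y _ =>
        ⟨_, hV ⟨x, Subgroup.le_topologicalClosure _ hx⟩ y, rfl⟩) ?_
      exact (hc.isClosedEmbedding_subtypeVal.isClosedMap _ cV).preimage
        QuotientGroup.continuous_mk
    obtain ⟨v, hv, ev⟩ := h1 ha
    obtain ⟨c, hc1, hc2⟩ := eC v hv
    obtain ⟨κ, hκ, eκ⟩ := eC' ⟨c, hc1, rfl⟩
    have h2 : (c⁻¹ * v).1 ∈ (Subgroup.closure S').map (QuotientGroup.mk' (L G (i + 2))) := by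
      refine (Subgroup.closure_le (((Subgroup.closure S').map (QuotientGroup.mk' (L G (i + 2)))).comap
        (Subgroup.center _).subtype)).2 ?_ hc2
      rintro _ ⟨s, hs, t, ht, rfl⟩
      exact ⟨_, Subgroup.subset_closure ⟨s.1, hs, t, ht, rfl⟩, rfl⟩
    obtain ⟨l, hl, el⟩ := h2
    have h3 : l⁻¹ * κ⁻¹ * a ∈ L G (i + 2) := by
      rw [← QuotientGroup.eq_one_iff]
      simp only [QuotientGroup.mk'_apply, Subgroup.coe_subtype, Subgroup.coe_mul, Subgroup.coe_inv] at ev el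
      simp only [QuotientGroup.mk_mul, QuotientGroup.mk_inv, el, eκ, ← ev]
      group
    refine ⟨κ, ⟨hκ, ?_⟩, l, hl, h3⟩
    have := mul_mem (mul_mem ha (inv_mem (L_anti _ h3))) (inv_mem ((Subgroup.closure_le _).2 sS' hl))
    simpa [mul_assoc] using this

lemma rat_of [T2Space G] [LocallyCompactSpace G] (Γ : Subgroup G) (k : ℕ)
    (nil : (⊤ : Subgroup G).lowerCentralSeries k = ⊥)
    (KB : Set G) (hKB : IsCompact KB) (SB : Set G) (hSB : SB.Finite) (hΓ : SB ⊆ Γ)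
    (hB : ∀ y, ∃ κ ∈ KB, ∃ l ∈ Subgroup.closure SB, y = κ * l)
    (D : Subgroup G) (hD : ∀ m : ℕ, 1 ≤ m → D ≤ Subgroup.closure (Set.range fun y : G => y ^ m))
    (g : G) (hg : ∀ T : Subgroup G, D ≤ T → g ∈ T → T = ⊤) :
    L G k ≤ Γ ∧ ∀ i, ∃ K : Set G, IsCompact K ∧ K ⊆ L G i ∧ ∀ a ∈ L G i, ∃ κ ∈ K, κ⁻¹ * a ∈ Γ := by
  have h0 : L G k ≤ Γ := by
    refine le_trans (Subgroup.topologicalClosure_minimal _ nil.le ?_) bot_le
    simp
  have wr : ∀ i, WR Γ i := by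
    intro i
    induction i with
    | zero =>
      refine ⟨KB, hKB, fun a _ => L_zero a, SB, hSB, hΓ, fun a _ => L_zero a, fun a _ => ?_⟩
      obtain ⟨κ, hκ, l, hl, rfl⟩ := hB a
      exact ⟨κ, hκ, l, hl, by simp [mul_assoc]⟩
    | succ i ih => exact wr_succ Γ KB hKB SB hSB hΓ hB D hD g hg i ih
  have key : ∀ m i, k ≤ i + m →
      ∃ K : Set G, IsCompact K ∧ K ⊆ L G i ∧ ∀ a ∈ L G i, ∃ κ ∈ K, κ⁻¹ * a ∈ Γ := by
    intro m
    induction m with
    | zero =>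
      intro i hi
      refine ⟨{1}, isCompact_singleton, by simp, fun a ha => ⟨1, rfl, ?_⟩⟩
      simpa using h0 (antitone_nat_of_succ_le L_anti hi ha)
    | succ m ih =>
      intro i hi
      obtain ⟨K', hK', s', e'⟩ := ih (i + 1) (by omega)
      obtain ⟨K, hK, sK, S, -, sΓ, -, e⟩ := wr i
      refine ⟨K * K', hK.mul hK', ?_, fun a ha => ?_⟩
      · rintro _ ⟨x, hx, y, hy, rfl⟩
        exact mul_mem (sK hx) (L_anti i (s' hy))
      · obtain ⟨κ, hκ, l, hl, h⟩ := e a ha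
        obtain ⟨κ', hκ', h'⟩ := e' _ ((inferInstance : (L G (i + 1)).Normal).conj_mem _ h l)
        refine ⟨κ * κ', Set.mul_mem_mul hκ hκ', ?_⟩
        have := mul_mem h' ((Subgroup.closure_le _).2 sΓ hl)
        simpa [mul_assoc] using this
  exact ⟨h0, fun i => key k i (by omega)⟩

def HH (G : Type) [Group G] [TopologicalSpace G] [IsTopologicalGroup G] : ℕ → Subgroup G
  | 0 => L G 0
  | i + 1 => L G i

def mkFG (Γ : Subgroup G)
    (h : ∀ i, ∃ K : Set G, IsCompact K ∧ K ⊆ L G i ∧ ∀ a ∈ L G i, ∃ κ ∈ K, κ⁻¹ * a ∈ Γ) : FG where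
  G := G
  H := HH G
  anti
    | 0 => le_rfl
    | i + 1 => L_anti i
  comm
    | 0, 0, _, _, _, _ => L_zero _
    | 0, j + 1, a, b, _, hb => by
      rw [zero_add]
      exact mul_mem ((inferInstance : (L G j).Normal).conj_mem _ hb a) (inv_mem hb)
    | i + 1, 0, a, b, ha, _ => L_anti i (L_comm0 ha b)
    | i + 1, j + 1, a, b, ha, hb => by
      rw [show i + 1 + (j + 1) = i + j + 1 + 1 by ring]
      exact L_comm ha hb
  Γ := Γ
  rat
    | 0 => h 0
    | i + 1 => h i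

theorem nil_cube [T2Space G] [LocallyCompactSpace G] [LocallyConnectedSpace G]
    (hpow : ∀ m : ℕ, 1 ≤ m → ∀ U ∈ 𝓝 (1 : G), (fun y => y ^ m) '' U ∈ 𝓝 (1 : G))
    (k : ℕ) (nil : (⊤ : Subgroup G).lowerCentralSeries k = ⊥) (Γ : Subgroup G)
    [DiscreteTopology Γ] [CompactSpace (G ⧸ Γ)] (g : G) (x : G ⧸ Γ)
    (O : Set ((G ⧸ Γ) × (G ⧸ Γ))) (hO : IsOpen O) (hd : ∀ x, (x, x) ∈ O) :
    ∃ (C : Type) (_ : Finite C) (col : ℕ → C), ∀ p q : Fin (k + 1) → Bool → ℕ,
      (∀ ω : Fin (k + 1) → Bool, ω ≠ (fun _ => true) →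
        col (∑ l, p l (ω l)) = col (∑ l, q l (ω l))) →
      (g ^ (∑ l, p l true) • x, g ^ (∑ l, q l true) • x) ∈ O := by
  obtain ⟨x0, rfl⟩ := QuotientGroup.mk_surjective x
  let D0 := Subgroup.connectedComponentOfOne G
  have oD : (D0 : Set G) ∈ 𝓝 (1 : G) := isOpen_connectedComponent.mem_nhds mem_connectedComponent
  have hD0 : ∀ T : Subgroup G, (T : Set G) ∈ 𝓝 (1 : G) → D0 ≤ T := fun T hT =>
    IsClopen.connectedComponent_subset
      ⟨T.isClosed_of_isOpen (T.isOpen_of_mem_nhds hT), T.isOpen_of_mem_nhds hT⟩ T.one_mem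
  let G' := D0 ⊔ Subgroup.zpowers (x0⁻¹ * g * x0)
  have oG : IsOpen (G' : Set G) := G'.isOpen_of_mem_nhds (mem_of_superset oD (fun _ h => Subgroup.mem_sup_left h))
  haveI : LocallyCompactSpace G' := (G'.isClosed_of_isOpen oG).locallyCompactSpace
  let g' : G' := ⟨x0⁻¹ * g * x0, Subgroup.mem_sup_right (Subgroup.mem_zpowers _)⟩
  let D := D0.subgroupOf G'
  have hDT : ∀ T : Subgroup G', (T : Set G') ∈ 𝓝 (1 : G') → D ≤ T := by
    intro T hT y hy
    obtain ⟨z, hz, e⟩ := hD0 (T.map G'.subtype) (oG.isOpenMap_subtype_val.image_mem_nhds hT) hy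
    exact Subtype.val_injective e ▸ hz
  have hg : ∀ T : Subgroup G', D ≤ T → g' ∈ T → T = ⊤ := by
    intro T h1 h2
    rw [eq_top_iff]
    intro y _
    have : G' ≤ T.map G'.subtype := sup_le (fun z hz => ⟨⟨z, Subgroup.mem_sup_left hz⟩, h1 hz, rfl⟩)
      (Subgroup.zpowers_le.2 ⟨g', h2, rfl⟩)
    obtain ⟨z, hz, e⟩ := this y.2
    exact Subtype.val_injective e ▸ hz
  have hD : ∀ m : ℕ, 1 ≤ m → D ≤ Subgroup.closure (Set.range fun y : G' => y ^ m) := by
    intro m hm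
    refine hDT _ (mem_of_superset (continuous_subtype_val.continuousAt.preimage_mem_nhds
      (hpow m hm _ (oG.mem_nhds G'.one_mem))) ?_)
    rintro y ⟨z, hz, e⟩
    exact Subgroup.subset_closure ⟨⟨z, hz⟩, Subtype.ext e⟩
  let f : G' → G ⧸ Γ := fun v => (v.1 : G ⧸ Γ)
  have of : IsOpenMap f := QuotientGroup.isOpenMap_coe.comp oG.isOpenMap_subtype_val
  have cf : IsClosed (Set.range f) := by
    rw [← isOpen_compl_iff, isOpen_iff_mem_nhds]
    intro z hz
    obtain ⟨z, rfl⟩ := QuotientGroup.mk_surjective z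
    have : (fun v : G => ((v * z : G) : G ⧸ Γ)) '' G' ∈ 𝓝 ((1 * z : G) : G ⧸ Γ) :=
      (QuotientGroup.isOpenMap_coe.comp (isOpenMap_mul_right z)).image_mem_nhds
        (oG.mem_nhds G'.one_mem)
    rw [one_mul] at this
    refine mem_of_superset this ?_
    rintro _ ⟨v, hv, rfl⟩ ⟨w, e⟩
    refine hz ⟨⟨v, hv⟩⁻¹ * w, ?_⟩
    have := congrArg (fun t => v⁻¹ • t) e
    simpa [f] using this
  obtain ⟨K0, hK0, eK⟩ := lift_compact of cf.isCompact le_rfl
  let K := insert 1 K0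
  have hK : IsCompact K := hK0.insert 1
  obtain ⟨U, hU, h1U⟩ := exists_compact_mem_nhds (1 : G')
  let s := insert g' U
  have hs : IsCompact s := hU.insert g'
  have gen : Subgroup.closure s = ⊤ := hg _ (hDT _ (mem_of_superset h1U
    (fun y hy => Subgroup.subset_closure (Set.mem_insert_of_mem _ hy)))) (Subgroup.subset_closure (Set.mem_insert _ _))
  let Γ' := Γ.subgroupOf G'
  let S : Set G' := (K⁻¹ * (s ∪ s⁻¹) * K) ∩ Γ'
  have hS : S.Finite := by
    have h1 : IsCompact (Subtype.val '' (K⁻¹ * (s ∪ s⁻¹) * K) ∩ (Γ : Set G)) :=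
      (((hK.inv.mul (hs.union hs.inv)).mul hK).image continuous_subtype_val).inter_right
        inferInstance
    have h2 := h1.finite ((isDiscrete_iff_discreteTopology.2 inferInstance : IsDiscrete
      (Γ : Set G)).mono Set.inter_subset_right)
    exact (h2.preimage Subtype.val_injective.injOn).subset (fun y hy => ⟨⟨y, hy.1, rfl⟩, hy.2⟩)
  have hB : ∀ y : G', ∃ κ ∈ K, ∃ l ∈ Subgroup.closure S, y = κ * l := by
    have st : ∀ t ∈ s ∪ s⁻¹, ∀ y : G', (∃ κ ∈ K, ∃ l ∈ Subgroup.closure S, y = κ * l) →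
        ∃ κ ∈ K, ∃ l ∈ Subgroup.closure S, t * y = κ * l := by
      rintro t ht _ ⟨κ, hκ, l, hl, rfl⟩
      obtain ⟨κ', hκ', e⟩ := eK ⟨t * κ, rfl⟩
      have h1 : κ' ∈ K := Set.mem_insert_of_mem _ hκ'
      refine ⟨κ', h1, κ'⁻¹ * t * κ * l, mul_mem (Subgroup.subset_closure ⟨Set.mul_mem_mul
        (Set.mul_mem_mul (Set.inv_mem_inv.2 h1) ht) hκ, ?_⟩) hl, by group⟩
      have := QuotientGroup.eq.1 e
      rw [mul_assoc]
      exact this
    intro y
    exact Subgroup.closure_induction_left (p := fun y _ => ∃ κ ∈ K, ∃ l ∈ Subgroup.closure S, y = κ * l)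
      ⟨1, Set.mem_insert _ _, 1, one_mem _, by simp⟩
      (fun t ht y _ h => st t (Or.inl ht) y h)
      (fun t ht y _ h => st t⁻¹ (Or.inr (Set.inv_mem_inv.2 ht)) y h) (gen ▸ Subgroup.mem_top y)
  have nil' : (⊤ : Subgroup G').lowerCentralSeries k = ⊥ := by
    rw [← Subgroup.map_subtype_inj, Subgroup.top_subtype_lowerCentralSeries, Subgroup.map_bot, eq_bot_iff, ← nil]
    exact Subgroup.lowerCentralSeries_mono k le_top
  obtain ⟨h1, h2⟩ := rat_of Γ' k nil' K hK S hS Set.inter_subset_right hB D hD g' hg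
  obtain ⟨C, fC, col, hcol⟩ := (mkFG Γ' h2).cube_prop (k + 1) h1
    (fun v : G' => ((x0 * v.1 : G) : G ⧸ Γ))
    (QuotientGroup.continuous_mk.comp (continuous_const.mul continuous_subtype_val))
    (fun a b => by
      rw [QuotientGroup.eq, mul_inv_rev, mul_assoc, inv_mul_cancel_left]
      rfl) O hO hd
  have e : ∀ n : ℕ, ((x0 * (g' ^ n).1 : G) : G ⧸ Γ) = g ^ n • (x0 : G ⧸ Γ) := by
    intro n
    have : (x0⁻¹ * g * x0) ^ n = x0⁻¹ * g ^ n * x0 := by
      simpa using conj_pow (i := n) (a := x0⁻¹) (b := g)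
    show ((x0 * (x0⁻¹ * g * x0) ^ n : G) : G ⧸ Γ) = ((g ^ n * x0 : G) : G ⧸ Γ)
    rw [this, mul_assoc x0⁻¹, mul_inv_cancel_left]
  refine ⟨C, fC, fun n => col ((x0 * (g' ^ n).1 : G) : G ⧸ Γ), fun p q h => ?_⟩
  rw [← e, ← e]
  exact hcol _ ((mkFG Γ' h2).cube_pow _ g' (L_zero g') p) _
    ((mkFG Γ' h2).cube_pow _ g' (L_zero g') q) h

end Pool.Agent.KS6_49.NilI
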