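import Pool.Agent.KS6_49.NilI.F

namespace Pool.Agent.KS6_49.NilI
open Function Topology Filter Finset

lemma digits_uniq {b : ℕ} (T : ℕ) : ∀ f g : ℕ → ℕ, (∀ t, f t < b) → (∀ t, g t < b) →
    ∑ t ∈ range T, f t * b ^ t = ∑ t ∈ range T, g t * b ^ t → ∀ t < T, f t = g t := by
  induction T with
  | zero => simp
  | succ T ih =>
    intro f g hf hg h
    simp only [sum_range_succ', pow_succ, ← mul_assoc, ← sum_mul, pow_zero, mul_one] at h
    have h0 : f 0 = g 0 := by
      have := congrArg (· % b) h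
      simpa [Nat.mul_add_mod', Nat.mod_eq_of_lt (hf 0), Nat.mod_eq_of_lt (hg 0)] using this
    rw [h0, add_left_inj] at h
    have h1 := ih _ _ (fun t => hf (t + 1)) (fun t => hg (t + 1))
      (Nat.eq_of_mul_eq_mul_right (Nat.zero_lt_of_lt (hf 0)) h)
    rintro (_ | t) ht
    · exact h0
    · exact h1 t (by omega)

lemma sid {k b : ℕ} (hb : k < b) (u u' : Fin k → ℕ) (h : ∑ l, b ^ u l = ∑ l, b ^ u' l) (l : Fin k) :
    ∃ l', u l' = u' l := by
  let T := (∑ l, u l) + (∑ l, u' l) + 1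
  have e : ∀ v : Fin k → ℕ, (∀ l, v l < T) →
      ∑ l, b ^ v l = ∑ t ∈ range T, #{l | v l = t} * b ^ t := by
    intro v hv
    rw [← sum_fiberwise_of_maps_to (g := v) (fun l _ => mem_range.2 (hv l))]
    refine sum_congr rfl fun t _ => ?_
    rw [sum_congr rfl (fun l hl => by rw [(mem_filter.1 hl).2]), sum_const, smul_eq_mul]
  have h1 : ∀ l, u l < T := fun l => by
    have := single_le_sum (f := u) (fun _ _ => Nat.zero_le _) (mem_univ l)
    omega
  have h2 : ∀ l, u' l < T := fun l => by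
    have := single_le_sum (f := u') (fun _ _ => Nat.zero_le _) (mem_univ l)
    omega
  have c : ∀ (v : Fin k → ℕ) t, #{l | v l = t} < b := fun v t =>
    ((card_filter_le _ _).trans (by simp)).trans_lt hb
  rw [e u h1, e u' h2] at h
  have := digits_uniq T _ _ (c u) (c u') h _ (h2 l)
  have h3 : 0 < #{l' | u l' = u' l} := this ▸ card_pos.2 ⟨l, by simp⟩
  obtain ⟨l', hl'⟩ := card_pos.1 h3
  exact ⟨l', (mem_filter.1 hl').2⟩

open Classical in
noncomputable def cc (k : ℕ) : ℕ := #{φ : Fin (k + 1) → Fin (k + 1) | Bijective φ}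

lemma cc_pos (k : ℕ) : 0 < cc k := by
  classical
  exact card_pos.2 ⟨id, mem_filter.2 ⟨mem_univ _, bijective_id⟩⟩

def DD (k : ℕ) : ℕ := 3 * (k + 1) ^ (k + 1) + (k + 1)

noncomputable def BB (k : ℕ) : ℕ := 2 * cc k * DD k

lemma BB_ge (k : ℕ) : 2 * DD k ≤ BB k := by
  have := cc_pos k
  unfold BB
  nlinarith [Nat.zero_le (DD k)]

def ww (k : ℕ) (l : Fin (k + 1)) (i : ℕ) : ℕ := (k + 2) ^ Nat.pair l i

noncomputable def aa (k : ℕ) (l : Fin (k + 1)) (i : ℕ) : ℕ := BB k ^ ww k l i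

lemma pair_eq {k : ℕ} {l l' : Fin (k + 1)} {i i' : ℕ} (h : Nat.pair l i = Nat.pair l' i') :
    l = l' ∧ i = i' := ⟨Fin.ext (Nat.pair_eq_pair.1 h).1, (Nat.pair_eq_pair.1 h).2⟩

lemma aa_inj (k : ℕ) : Injective fun j : Fin (k + 1) → ℕ => ∑ l, aa k l (j l) := by
  intro j j' h
  funext l
  have := BB_ge k
  obtain ⟨l', e⟩ := sid (by unfold DD at this; omega) _ _ h l
  obtain ⟨rfl, e⟩ := pair_eq (Nat.pow_right_injective (by omega) e)
  exact e

noncomputable def EE (k : ℕ) : Set ℕ := Set.range fun j : Fin (k + 1) → ℕ => ∑ l, aa k l (j l)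

lemma EE_pos (k : ℕ) : ∀ n ∈ EE k, 1 ≤ n := by
  rintro _ ⟨j, rfl⟩
  have := BB_ge k
  exact le_trans (Nat.one_le_pow _ _ (by unfold DD at this; omega))
    (single_le_sum (f := fun l => aa k l (j l)) (fun _ _ => Nat.zero_le _) (mem_univ 0))

lemma frac_digits {b : ℕ} (d : ℕ → Fin b) (e : ℕ) : ∃ (z : ℤ) (δ : ℝ), 0 ≤ δ ∧ δ ≤ 1 ∧
    Real.ofDigits d * b ^ e = z + (d e + δ) / b := by
  have hb : (0 : ℝ) < b := by exact_mod_cast (d 0).pos
  refine ⟨∑ i ∈ range e, d i * b ^ (e - 1 - i), _, Real.ofDigits_nonneg (fun i => d (i + (e + 1))),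
    Real.ofDigits_le_one _, ?_⟩
  rw [Real.ofDigits_eq_sum_add_ofDigits d (e + 1), sum_range_succ, add_mul, add_mul, sum_mul,
    add_assoc]
  push_cast
  congr 1
  · refine sum_congr rfl fun i hi => ?_
    obtain ⟨r, rfl⟩ : ∃ r, e = i + 1 + r := ⟨e - 1 - i, by have := mem_range.1 hi; omega⟩
    rw [show i + 1 + r - 1 - i = r by omega, Real.ofDigitsTerm, pow_add _ (i + 1)]
    field_simp
  · rw [Real.ofDigitsTerm]
    field_simp
    ring

lemma cos_ge {δ : ℝ} (h0 : 0 ≤ δ) (h1 : δ ≤ 1 / 6) : 1 ≤ 2 * Real.cos (2 * Real.pi * δ) := by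
  have := Real.cos_le_cos_of_nonneg_of_le_pi (x := 2 * Real.pi * δ) (y := Real.pi / 3)
    (by positivity) (by linarith [Real.pi_pos]) (by nlinarith [Real.pi_pos])
  rw [Real.cos_pi_div_three] at this
  linarith

lemma exists_alpha (k : ℕ) (s : ℕ → Fin 2) :
    ∃ α : ℝ, ∀ n ∈ EE k, (F0 (α * n ^ (k + 1)) + 1) / 2 = s n := by
  classical
  have hB := BB_ge k
  have hD : 0 < DD k := by unfold DD; omega
  let d : ℕ → Fin (BB k) := fun e =>
    if ∃ j : Fin (k + 1) → ℕ, ∑ l, ww k l (j l) = e ∧ s (∑ l, aa k l (j l)) = 0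
    then ⟨DD k, by omega⟩ else ⟨0, by omega⟩
  refine ⟨Real.ofDigits d, ?_⟩
  rintro _ ⟨j, rfl⟩
  choose z δ h0 h1 e using frac_digits d
  let ex : (Fin (k + 1) → Fin (k + 1)) → ℕ := fun φ => ∑ l, ww k (φ l) (j (φ l))
  have key : ∀ φ j', ∑ l, ww k l (j' l) = ex φ → Bijective φ ∧ j' = j := by
    intro φ j' h
    have := fun l => (sid (by omega) _ _ h.symm l).imp fun l' e => pair_eq e
    refine ⟨Finite.surjective_iff_bijective.1 fun l => (this l).imp fun _ h => h.1, funext fun l => ?_⟩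
    obtain ⟨l', h1, h2⟩ := this l
    rw [← h2, h1]
  have hd : ∀ φ, (d (ex φ) : ℝ) =
      if Bijective φ then (if s (∑ l, aa k l (j l)) = 0 then (DD k : ℝ) else 0) else 0 := by
    intro φ
    simp only [d]
    split_ifs with h2 h3 h4 h3 h4
    · rfl
    · obtain ⟨j', h5, h6⟩ := h2
      exact (h4 ((key φ j' h5).2 ▸ h6)).elim
    · obtain ⟨j', h5, h6⟩ := h2
      exact (h3 (key φ j' h5).1).elim
    · exact (h2 ⟨j, (h3.sum_comp fun l => ww k l (j l)).symm, h4⟩).elim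
    · simp
    · simp
  have hB' : (0 : ℝ) < BB k := by exact_mod_cast (by omega : 0 < BB k)
  have e1 : Real.ofDigits d * ((∑ l, aa k l (j l) : ℕ) : ℝ) ^ (k + 1) =
      ((if s (∑ l, aa k l (j l)) = 0 then 1 / 2 else 0) + (∑ φ, δ (ex φ)) / BB k) +
        (∑ φ, z (ex φ) : ℤ) := by
    push_cast
    rw [Fintype.sum_pow, mul_sum]
    have : ∀ φ : Fin (k + 1) → Fin (k + 1), ∏ l, (aa k (φ l) (j (φ l)) : ℝ) = BB k ^ ex φ := by
      intro φ
      simp only [aa, ex, Nat.cast_pow, prod_pow_eq_pow_sum]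
    simp only [this, e, sum_add_distrib, add_div, ← sum_div, hd]
    rw [← sum_filter, sum_const, nsmul_eq_mul, add_comm]
    congr 2
    split_ifs
    · rw [div_eq_iff hB'.ne', BB, cc]
      push_cast
      ring
    · simp
  have p0 : 0 ≤ (∑ φ, δ (ex φ)) / BB k := div_nonneg (sum_nonneg fun _ _ => h0 _) hB'.le
  have p1 : (∑ φ, δ (ex φ)) / BB k ≤ 1 / 6 := by
    have : ∑ φ, δ (ex φ) ≤ ((k + 1) ^ (k + 1) : ℕ) := by
      simpa using sum_le_card_nsmul univ (fun φ => δ (ex φ)) 1 (fun _ _ => h1 _)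
    have h2 : ((6 * (k + 1) ^ (k + 1) : ℕ) : ℝ) ≤ BB k := by
      exact_mod_cast (by unfold DD at hB; omega)
    rw [div_le_iff₀ hB']
    push_cast at this h2
    linarith
  have hc := cos_ge p0 p1
  beta_reduce
  rw [e1, F0_int]
  split_ifs with h
  · rw [h, F0, mul_add, show 2 * Real.pi * (1 / 2) = Real.pi by ring, add_comm Real.pi,
      Real.cos_add_pi, max_eq_left (min_le_of_right_le (by linarith))]
    simp
  · have : s (∑ l, aa k l (j l)) = 1 := by omega
    rw [this, zero_add, F0, min_eq_left hc, max_eq_right (by norm_num)]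
    simp

noncomputable def tm (R : ℝ) (j : ℕ) (x y : ℝ) : ℂ :=
  ((2 * R * ((x + 1) / 2 * (2 ^ (j + 1))⁻¹) : ℝ) : ℂ) +
    ((2 * R * ((y + 1) / 2 * (2 ^ (j + 1))⁻¹) : ℝ) : ℂ) * Complex.I

lemma tm_le {R : ℝ} (hR : 0 ≤ R) (j : ℕ) {x y : ℝ} (hx : |x| ≤ 1) (hy : |y| ≤ 1) :
    ‖tm R j x y‖ ≤ 4 * R * (1 / 2) ^ j := by
  have : ∀ x : ℝ, |x| ≤ 1 → |2 * R * ((x + 1) / 2 * (2 ^ (j + 1))⁻¹)| ≤ 2 * R * (1 / 2) ^ j := by
    intro x hx
    have h1 := abs_le.1 hx
    have h2 : (0 : ℝ) < (1 / 2) ^ j := by positivity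
    have h3 : ((2 : ℝ) ^ (j + 1))⁻¹ = (1 / 2) ^ j / 2 := by rw [pow_succ]; field_simp; simp [← mul_pow]
    rw [h3, abs_of_nonneg (mul_nonneg (by positivity) (mul_nonneg (by linarith) (by positivity)))]
    exact mul_le_mul_of_nonneg_left (by nlinarith) (by positivity)
  refine (norm_add_le _ _).trans ?_
  rw [norm_mul, Complex.norm_I, mul_one, Complex.norm_real, Complex.norm_real, Real.norm_eq_abs,
    Real.norm_eq_abs]
  linarith [this x hx, this y hy]

lemma tm_cont (R : ℝ) (j : ℕ) : Continuous fun p : ℝ × ℝ => tm R j p.1 p.2 := by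
  unfold tm; fun_prop

lemma expand (k : ℕ) (f : ℕ → ℂ) (hf : ∃ R : ℝ, ∀ n ∈ EE k, ‖f n‖ ≤ R) :
    ∃ (R : ℝ) (α : ℕ → Bool → ℝ), 0 ≤ R ∧ ∀ n ∈ EE k, -R - R * Complex.I +
      ∑' j, tm R j (F0 (α j false * n ^ (k + 1))) (F0 (α j true * n ^ (k + 1))) = f n := by
  obtain ⟨R0, h0⟩ := hf
  let R := |R0| + 1
  have hR : 0 < R := by positivity
  have ex : ∀ x : ℝ, ∃ d : ℕ → Fin 2, |x| ≤ R → 2 * R * Real.ofDigits d = x + R := by
    intro x
    by_cases hx : |x| ≤ R
    · have := abs_le.1 hx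
      obtain ⟨d, -, hd⟩ := Real.ofDigits_SurjOn (b := 2) (by norm_num)
        (show (x + R) / (2 * R) ∈ Set.Icc (0 : ℝ) 1 from ⟨div_nonneg (by linarith) (by positivity),
          (div_le_one (by positivity)).2 (by linarith)⟩)
      exact ⟨d, fun _ => by rw [hd]; field_simp⟩
    · exact ⟨0, fun h => (hx h).elim⟩
  choose d hd using ex
  choose α hα using exists_alpha k
  refine ⟨R, fun j b => α (fun n => d (bif b then (f n).im else (f n).re) j), hR.le,
    fun n hn => ?_⟩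
  have b1 : ‖f n‖ ≤ R := (h0 n hn).trans (by linarith [le_abs_self R0])
  have s1 : ∀ x : ℝ, |x| ≤ R → HasSum (fun j => ((2 * R * (d x j * (2 ^ (j + 1))⁻¹) : ℝ) : ℂ))
      ((x + R : ℝ) : ℂ) := by
    intro x hx
    rw [← hd x hx]
    have := (Real.summable_ofDigitsTerm (digits := d x)).hasSum.mul_left (2 * R)
    exact Complex.hasSum_ofReal.2 (by simpa [Real.ofDigitsTerm, Real.ofDigits] using this)
  have := (s1 _ ((Complex.abs_re_le_norm _).trans b1)).add
    ((s1 _ ((Complex.abs_im_le_norm _).trans b1)).mul_right Complex.I)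
  simp only [tm, hα _ n hn, cond_true, cond_false]
  rw [this.tsum_eq]
  conv_rhs => rw [← Complex.re_add_im (f n)]
  push_cast
  ring

lemma sumu (R : ℝ) : Summable fun j : ℕ => 4 * R * (1 / 2) ^ j :=
  summable_geometric_two.mul_left _

theorem interp (k : ℕ) : Interp (k + 1) (EE k) := by
  intro f hf
  obtain ⟨R, α, hR, e⟩ := expand k f hf
  refine ⟨_, fun ε hε => ?_, e⟩
  have := tendstoUniformly_tsum_nat (sumu R) (f := fun j (n : ℕ) =>
    tm R j (F0 (α j false * n ^ (k + 1))) (F0 (α j true * n ^ (k + 1))))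
    (fun j n => tm_le hR j (F0_le _) (F0_le _))
  obtain ⟨J, hJ⟩ := (Metric.tendstoUniformly_iff.1 this ε hε).exists
  let β : Fin J × Bool → ℝ := fun q => α q.1 q.2
  refine ⟨_, ⟨sys k β, (vec k β 0 : GG _ k ⧸ Gam _ k), fun y => -R - R * Complex.I +
    ∑ j : Fin J, tm R j (th (j, false) y) (th (j, true) y), continuous_const.add
      (continuous_finset_sum _ fun j _ => (tm_cont R j).comp ((th_cont _).prodMk (th_cont _))),
    fun _ => rfl⟩, fun n _ => ?_⟩
  have h := (hJ n).le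
  rw [dist_eq_norm, ← Fin.sum_univ_eq_sum_range (fun j =>
    tm R j (F0 (α j false * n ^ (k + 1))) (F0 (α j true * n ^ (k + 1))))] at h
  rw [add_sub_add_left_eq_sub]
  have e1 := fun q => th_orbit (k := k) β q n
  refine le_of_eq_of_le ?_ h
  congr 2
  exact sum_congr rfl fun j _ => congrArg₂ _ (e1 _) (e1 _)

def res (k i : ℕ) : GG (Fin (i + 1) × Bool) k →* GG (Fin i × Bool) k where
  toFun p := (p.1, fun q => p.2 (q.1.castSucc, q.2))
  map_one' := rfl
  map_mul' _ _ := rfl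

noncomputable def resq (k i : ℕ) : GG (Fin (i + 1) × Bool) k ⧸ Gam _ k → GG (Fin i × Bool) k ⧸ Gam _ k :=
  Quotient.map' (res k i) (fun p q h => QuotientGroup.leftRel_apply.2 (by
    rw [← map_inv, ← map_mul]
    exact fun _ => QuotientGroup.leftRel_apply.1 h _))

noncomputable def lim (k : ℕ) (α : ℕ → Bool → ℝ) : InvSeq (k + 1) where
  S i := sys k (fun q : Fin i × Bool => α q.1 q.2)
  p i := resq k i
  cont i := Continuous.quotient_map' (continuous_fst.prodMk (continuous_pi fun _ =>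
    (continuous_apply _).comp continuous_snd)) _
  surj i y := by
    obtain ⟨p, rfl⟩ := QuotientGroup.mk_surjective y
    refine ⟨QuotientGroup.mk (show GG _ k from
      (p.1, fun q => Fin.lastCases 0 (fun j => p.2 (j, q.2)) q.1)), ?_⟩
    exact congrArg QuotientGroup.mk (GG.ext' rfl fun q => Fin.lastCases_castSucc
      (motive := fun _ => Fin (k + 1) → ℝ) (cast := fun j => p.2 (j, q.2)) q.1)
  equi i y := by
    obtain ⟨p, rfl⟩ := QuotientGroup.mk_surjective y
    rfl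

theorem interpLim (k : ℕ) : InterpLim (k + 1) (EE k) := by
  intro f hf
  obtain ⟨R, α, hR, e⟩ := expand k f hf
  have c0 : ∀ i, Continuous fun y : (lim k α).X => y.1 i := fun i =>
    (continuous_apply i).comp continuous_subtype_val
  refine ⟨lim k α, ⟨fun i => (vec k (fun q : Fin i × Bool => α q.1 q.2) 0 : GG _ k ⧸ Gam _ k),
    fun i => rfl⟩, fun y => -R - R * Complex.I +
      ∑' j, tm R j (th (Fin.last j, false) (y.1 (j + 1))) (th (Fin.last j, true) (y.1 (j + 1))),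
    continuous_const.add (continuous_tsum (fun j => (tm_cont R j).comp
      (((th_cont _).comp (c0 _)).prodMk ((th_cont _).comp (c0 _)))) (sumu R)
      (fun j y => tm_le hR j (th_le _ _) (th_le _ _))), fun n hn => ?_⟩
  rw [← e n hn]
  simp only [InvSeq.iter]
  congr 2
  funext j
  exact congrArg₂ _ (th_orbit _ _ n) (th_orbit _ _ n)

end Pool.Agent.KS6_49.NilI
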