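import Pool.Agent.KS6_49.NilI.E

/-!
# Finitely many `k`-step nilsequences do not cover a bounded function

`a` is a family of `k + 1` sequences with pairwise distinct sums `∑ l, a l (j l)`. One function `f`
with values in `[0, 1]` is constructed such that finitely many `k`-step nilsequences `ψ 0, …,
ψ (r - 1)` approximate it on the set of the sums no better than `r` constants do.
-/

namespace Pool.Agent.KS6_49.NilI
open Function Topology Filter
open scoped Manifold ContDiff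

lemma two_mul_pow_le {r : ℕ} (hr : 1 ≤ r) : 2 * r ^ r ≤ (r + 1) ^ r := by
  have hr0 : (0 : ℝ) < r := by exact_mod_cast hr
  have h1 := one_add_mul_le_pow (a := (r : ℝ)⁻¹) (by have := inv_pos.2 hr0; linarith) r
  rw [mul_inv_cancel₀ hr0.ne'] at h1
  have h2 : ((r : ℝ) + 1) ^ r = (1 + (r : ℝ)⁻¹) ^ r * (r : ℝ) ^ r := by
    rw [← mul_pow, add_mul, inv_mul_cancel₀ hr0.ne']
    ring
  have h3 : (2 : ℝ) * (r : ℝ) ^ r ≤ ((r : ℝ) + 1) ^ r := by
    rw [h2]
    exact mul_le_mul_of_nonneg_right (by linarith) (by positivity)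
  exact_mod_cast h3

/-- The count in the pigeonhole principle. -/
lemma count_lt {r c M P D : ℕ} (hr : 1 ≤ r) (hc : c ≤ 2 ^ M) (h : r * M * D < P) :
    c ^ D * r ^ P < (r + 1) ^ P := by
  set t := M * D with ht
  have h' : r * t < P := by rw [ht]; rwa [mul_assoc] at h
  obtain ⟨s, hs, hs0⟩ : ∃ s, P = r * t + s ∧ s ≠ 0 := ⟨P - r * t, by omega, by omega⟩
  have h1 : c ^ D ≤ 2 ^ t := by
    rw [ht, pow_mul]
    exact Nat.pow_le_pow_left hc D
  have h2 : 2 ^ t * r ^ (r * t) ≤ (r + 1) ^ (r * t) := by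
    have := Nat.pow_le_pow_left (two_mul_pow_le hr) t
    rwa [mul_pow, ← pow_mul, ← pow_mul] at this
  calc c ^ D * r ^ P ≤ 2 ^ t * r ^ P := Nat.mul_le_mul_right _ h1
    _ = (2 ^ t * r ^ (r * t)) * r ^ s := by rw [hs, pow_add]; ring
    _ ≤ (r + 1) ^ (r * t) * r ^ s := Nat.mul_le_mul_right _ h2
    _ < (r + 1) ^ (r * t) * (r + 1) ^ s :=
        Nat.mul_lt_mul_of_pos_left (Nat.pow_lt_pow_left (Nat.lt_succ_self r) hs0)
          (Nat.pow_pos (Nat.succ_pos r))
    _ = (r + 1) ^ P := by rw [hs, pow_add]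

lemma neg_comb' (k : ℕ) (a : Fin (k + 1) → ℕ → ℕ)
    (inj : Injective fun j : Fin (k + 1) → ℕ => ∑ l, a l (j l)) :
    ∃ f : ℕ → ℝ, (∀ n, 0 ≤ f n ∧ f n ≤ 1) ∧ ∀ (r : ℕ) (_ : 1 ≤ r) (C : Type) [Finite C]
      (col : ℕ → C) (cls : ℕ → Fin r),
      ∃ p q : Fin (k + 1) → Bool → ℕ, (∀ w : Fin (k + 1) → Bool, w ≠ (fun _ => true) →
        col (∑ l, p l (w l)) = col (∑ l, q l (w l))) ∧
      (∑ l, p l true) ∈ Set.range (fun j : Fin (k + 1) → ℕ => ∑ l, a l (j l)) ∧
      (∑ l, q l true) ∈ Set.range (fun j : Fin (k + 1) → ℕ => ∑ l, a l (j l)) ∧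
      cls (∑ l, p l true) = cls (∑ l, q l true) ∧
      1 / (r : ℝ) ≤ |f (∑ l, p l true) - f (∑ l, q l true)| := by
  classical
  obtain ⟨dec, hdec⟩ := exists_surjective_nat (ℕ × ((Fin k → ℕ) →₀ ℕ))
  let val : (Fin (k + 1) → ℕ) → ℝ := fun j =>
    (min ((dec (j 0)).2 (Fin.tail j)) (dec (j 0)).1 : ℕ) / ((dec (j 0)).1 : ℝ)
  have hval : ∀ j, 0 ≤ val j ∧ val j ≤ 1 := by
    intro j
    refine ⟨by positivity, ?_⟩
    refine div_le_one_of_le₀ ?_ (Nat.cast_nonneg _)
    exact_mod_cast min_le_right _ _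
  let f : ℕ → ℝ := fun n =>
    if h : ∃ j : Fin (k + 1) → ℕ, ∑ l, a l (j l) = n then val h.choose else 0
  have hf : ∀ j : Fin (k + 1) → ℕ, f (∑ l, a l (j l)) = val j := by
    intro j
    have h : ∃ j' : Fin (k + 1) → ℕ, ∑ l, a l (j' l) = ∑ l, a l (j l) := ⟨j, rfl⟩
    simp only [f]
    rw [dif_pos h, inj h.choose_spec]
  refine ⟨f, fun n => ?_, fun r hr C _ col cls => ?_⟩
  · simp only [f]
    split_ifs
    · exact hval _
    · simp
  haveI := Fintype.ofFinite C
  obtain ⟨N, hN⟩ := exists_N k (r * Fintype.card C)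
  let P := {j : Fin k → Fin (N + 1) // ∀ l, j l ≠ 0}
  let D := {j : Fin k → Fin (N + 1) // ¬ ∀ l, j l ≠ 0}
  have cP : Fintype.card P = N ^ k := by
    rw [Fintype.card_congr (Equiv.subtypePiEquivPi (p := fun _ (x : Fin (N + 1)) => x ≠ 0))]
    simp
  have cD : Fintype.card D + N ^ k = (N + 1) ^ k := by
    rw [Fintype.card_subtype_compl, ← cP, Nat.sub_add_cancel (Fintype.card_subtype_le _)]
    simp
  let v : P ↪ (Fin k → ℕ) := ⟨fun j l => j.1 l,
    fun j j' h => Subtype.ext (funext fun l => Fin.ext (congrFun h l))⟩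
  let fs : (P → Fin (r + 1)) → ((Fin k → ℕ) →₀ ℕ) := fun S =>
    Finsupp.embDomain v (Finsupp.equivFunOnFinite.symm fun j => (S j : ℕ))
  have hfs : ∀ S j, fs S (v j) = (S j : ℕ) := by
    intro S j
    simp only [fs]
    rw [Finsupp.embDomain_apply_self]
    rfl
  let idx : (P → Fin (r + 1)) → ℕ := fun S => surjInv hdec (r, fs S)
  have hidx : ∀ S, dec (idx S) = (r, fs S) := fun S => surjInv_eq hdec _
  let prof : (P → Fin (r + 1)) → (D → C) × (P → Fin r) := fun S =>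
    (fun j => col (∑ l, a l ((Fin.cons (idx S) (fun l => j.1 l) : Fin (k + 1) → ℕ) l)),
      fun j => cls (∑ l, a l ((Fin.cons (idx S) (fun l => j.1 l) : Fin (k + 1) → ℕ) l)))
  obtain ⟨S, S', hne, e⟩ := Fintype.exists_ne_map_eq_of_card_lt prof (by
    rw [Fintype.card_prod, Fintype.card_fun, Fintype.card_fun, Fintype.card_fun, Fintype.card_fin,
      Fintype.card_fin, cP]
    refine count_lt hr Nat.lt_two_pow_self.le ?_
    rw [← cD] at hN
    nlinarith)
  obtain ⟨j, hj⟩ : ∃ j, S j ≠ S' j := by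
    by_contra h
    push Not at h
    exact hne (funext h)
  refine ⟨fun l b => a l ((Fin.cons (bif b then idx S else idx S')
      (fun l => bif b then j.1 l else 0) : Fin (k + 1) → ℕ) l),
    fun l b => a l ((Fin.cons (idx S') (fun l => bif b then j.1 l else 0) : Fin (k + 1) → ℕ) l),
    fun w hw => ?_, ⟨_, rfl⟩, ⟨_, rfl⟩, ?_, ?_⟩
  · simp only [Fin.sum_univ_succ, Fin.cons_zero, Fin.cons_succ]
    rcases h0 : w 0 with _ | _
    · rfl
    · have := congrFun (congrArg Prod.fst e) ⟨fun l => bif w l.succ then j.1 l else 0,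
        fun h => hw (funext fun l => by
        refine Fin.cases h0 (fun l => ?_) l
        have := h l
        rcases h1 : w l.succ with _ | _
        · simp [h1] at this
        · rfl)⟩
      simp only [prof, Fin.sum_univ_succ, Fin.cons_zero, Fin.cons_succ, Bool.apply_cond,
        Fin.val_zero] at this
      simpa only [Bool.apply_cond, cond_true] using this
  · have := congrFun (congrArg Prod.snd e) j
    simpa only [prof, cond_true] using this
  · rw [hf, hf]
    have h1 : ∀ T : P → Fin (r + 1),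
        val (Fin.cons (idx T) (fun l => (j.1 l : ℕ))) = ((T j : ℕ) : ℝ) / r := by
      intro T
      simp only [val, Fin.cons_zero, Fin.tail_cons, hidx]
      have h2 : fs T (fun l => (j.1 l : ℕ)) = (T j : ℕ) := hfs T j
      rw [h2, min_eq_left (Nat.lt_succ_iff.1 (T j).2)]
    simp only [cond_true]
    rw [h1, h1, ← sub_div, abs_div, Nat.abs_cast]
    have hr0 : (0 : ℝ) < r := by exact_mod_cast hr
    rw [div_le_div_iff_of_pos_right hr0]
    have h3 : ((S j : ℕ) : ℤ) ≠ ((S' j : ℕ) : ℤ) := fun h => hj (Fin.ext (by exact_mod_cast h))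
    have h4 : (1 : ℤ) ≤ |((S j : ℕ) : ℤ) - ((S' j : ℕ) : ℤ)| :=
      Int.one_le_abs (sub_ne_zero.2 h3)
    exact_mod_cast h4

/-- On `{1, 2, …}`, the value of `ψ` at the top vertex of a `(k + 1)`-dimensional cube is determined,
up to an arbitrarily small error, by finitely many colours of the other vertices. -/
def Det (k : ℕ) (ψ : ℕ → ℂ) : Prop :=
  ∀ ε : ℝ, 0 < ε → ∃ (C : Type) (_ : Finite C) (col : ℕ → C), ∀ p q : Fin (k + 1) → Bool → ℕ,
    (∀ w : Fin (k + 1) → Bool, w ≠ (fun _ => true) →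
      col (∑ l, p l (w l)) = col (∑ l, q l (w l))) →
    1 ≤ ∑ l, p l true → 1 ≤ ∑ l, q l true → ‖ψ (∑ l, p l true) - ψ (∑ l, q l true)‖ < ε

theorem Nilseq.det {k : ℕ} {ψ : ℕ → ℂ} (h : Nilseq k ψ) : Det k ψ := by
  intro ε hε
  obtain ⟨φ, ⟨S, x, F, hF, eF⟩, hφ⟩ := h (ε / 4) (by positivity)
  obtain ⟨C, hC, col, hcol⟩ := S.cube x {z | ‖F z.1 - F z.2‖ < ε / 4}
    (isOpen_lt (by fun_prop) continuous_const) (by simp; positivity)
  refine ⟨C, hC, col, fun p q h1 h2 h3 => ?_⟩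
  have h5 := hcol p q h1
  simp only [Set.mem_setOf_eq, ← eF] at h5
  have h6 := hφ _ h2
  have h7 := hφ _ h3
  rw [norm_sub_rev] at h7
  have := norm_sub_le_norm_sub_add_norm_sub (ψ (∑ l, p l true)) (φ (∑ l, p l true))
    (ψ (∑ l, q l true))
  have := norm_sub_le_norm_sub_add_norm_sub (φ (∑ l, p l true)) (φ (∑ l, q l true))
    (ψ (∑ l, q l true))
  linarith

theorem InvSeq.det {k : ℕ} (L : InvSeq k) (x : L.X) (F : L.X → ℂ) (hF : Continuous F) :
    Det k (fun n => F (L.T^[n] x)) := by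
  intro ε hε
  haveI : CompactSpace L.X := isCompact_iff_compactSpace.1 (IsClosed.isCompact (by
    show IsClosed {y : ∀ i, (L.S i).X | ∀ i, L.p i (y (i + 1)) = y i}
    rw [Set.setOf_forall]
    exact isClosed_iInter fun i => isClosed_eq ((L.cont i).comp (continuous_apply _))
      (continuous_apply _)))
  have c0 : ∀ i, Continuous fun y : L.X => y.1 i := fun i =>
    (continuous_apply i).comp continuous_subtype_val
  have c1 : ∀ i, Continuous fun z : L.X × L.X => z.1.1 i := fun i => (c0 i).comp continuous_fst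
  have c2 : ∀ i, Continuous fun z : L.X × L.X => z.2.1 i := fun i => (c0 i).comp continuous_snd
  let B : Set (L.X × L.X) := {z | ε ≤ ‖F z.1 - F z.2‖}
  have hB : IsClosed B := isClosed_le continuous_const (by fun_prop)
  obtain ⟨i, hi⟩ : ∃ i, ∀ z ∈ B, z.1.1 i ≠ z.2.1 i := by
    by_contra hc
    push Not at hc
    obtain ⟨z, hz⟩ := IsCompact.nonempty_iInter_of_sequence_nonempty_isCompact_isClosed
      (fun i => B ∩ {z | z.1.1 i = z.2.1 i})
      (fun i z hz => ⟨hz.1, by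
        have := congrArg (L.p i) hz.2
        rwa [z.1.2, z.2.2] at this⟩) hc
      (hB.inter (isClosed_eq (c1 0) (c2 0))).isCompact
      (fun i => hB.inter (isClosed_eq (c1 i) (c2 i)))
    rw [Set.mem_iInter] at hz
    have h1 : z.1 = z.2 := Subtype.ext (funext fun i => (hz i).2)
    have h2 : ε ≤ ‖F z.1 - F z.2‖ := (hz 0).1
    rw [h1] at h2
    simp only [sub_self, norm_zero] at h2
    linarith
  obtain ⟨C, hC, col, hcol⟩ := (L.S i).cube (x.1 i) ((fun z => (z.1.1 i, z.2.1 i)) '' B)ᶜ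
    (hB.isCompact.image ((c1 i).prodMk (c2 i))).isClosed.isOpen_compl (by
      rintro y ⟨z, hz, ez⟩
      exact hi z hz ((congrArg Prod.fst ez).trans (congrArg Prod.snd ez).symm))
  refine ⟨C, hC, col, fun p q h1 _ _ => ?_⟩
  by_contra h2
  refine hcol p q h1 ⟨(L.T^[∑ l, p l true] x, L.T^[∑ l, q l true] x), not_lt.1 h2, ?_⟩
  simp only [L.iter]

/-- No `r` functions with the cube property approximate `f` on the set of the sums better than `r`
constants do. -/
theorem no_cover (k : ℕ) (a : Fin (k + 1) → ℕ → ℕ)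
    (inj : Injective fun j : Fin (k + 1) → ℕ => ∑ l, a l (j l))
    (pos : ∀ n ∈ Set.range (fun j : Fin (k + 1) → ℕ => ∑ l, a l (j l)), 1 ≤ n) :
    ∃ f : ℕ → ℝ, (∀ n, 0 ≤ f n ∧ f n ≤ 1) ∧ ∀ (r : ℕ), 1 ≤ r → ∀ ψ : Fin r → ℕ → ℂ,
      (∀ i, Det k (ψ i)) → ∀ δ : ℝ, δ < 1 / (2 * r) →
        ∃ n ∈ Set.range (fun j : Fin (k + 1) → ℕ => ∑ l, a l (j l)),
          ∀ i, δ < ‖(f n : ℂ) - ψ i n‖ := by
  classical
  obtain ⟨f, hf, key⟩ := neg_comb' k a inj
  refine ⟨f, hf, fun r hr ψ hψ δ hδ => ?_⟩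
  by_contra hcon
  push Not at hcon
  have hr0 : (0 : ℝ) < r := by exact_mod_cast hr
  set ε : ℝ := 1 / r - 2 * δ with hε
  have hε0 : 0 < ε := by
    have : 1 / (2 * (r : ℝ)) = 1 / r / 2 := by field_simp
    rw [this] at hδ
    rw [hε]
    linarith
  choose C hC col hcol using fun i => hψ i ε hε0
  let cls : ℕ → Fin r := fun n =>
    if h : n ∈ Set.range (fun j : Fin (k + 1) → ℕ => ∑ l, a l (j l)) then (hcon n h).choose
    else ⟨0, hr⟩
  have hcls : ∀ n ∈ Set.range (fun j : Fin (k + 1) → ℕ => ∑ l, a l (j l)),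
      ‖(f n : ℂ) - ψ (cls n) n‖ ≤ δ := by
    intro n hn
    simp only [cls]
    rw [dif_pos hn]
    exact (hcon n hn).choose_spec
  haveI := hC
  obtain ⟨p, q, h1, h2, h3, h4, h5⟩ := key r hr (∀ i, C i) (fun n i => col i n) cls
  have h6 := hcol (cls (∑ l, p l true)) p q (fun w hw => congrFun (h1 w hw) _) (pos _ h2) (pos _ h3)
  have h7 := hcls _ h2
  have h8 := hcls _ h3
  rw [← h4, norm_sub_rev] at h8
  have h9 : 1 / (r : ℝ) ≤ ‖(f (∑ l, p l true) : ℂ) - (f (∑ l, q l true) : ℂ)‖ := by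
    rw [← Complex.ofReal_sub, Complex.norm_real, Real.norm_eq_abs]
    exact h5
  have t1 := norm_sub_le_norm_sub_add_norm_sub (f (∑ l, p l true) : ℂ)
    (ψ (cls (∑ l, p l true)) (∑ l, p l true)) (f (∑ l, q l true) : ℂ)
  have t2 := norm_sub_le_norm_sub_add_norm_sub (ψ (cls (∑ l, p l true)) (∑ l, p l true))
    (ψ (cls (∑ l, p l true)) (∑ l, q l true)) (f (∑ l, q l true) : ℂ)
  rw [hε] at h6
  linarith

end Pool.Agent.KS6_49.NilI
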