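import Pool.Agent.KS6_49.NilI.G
import Pool.Agent.KS6_49.NilI.H

/-!
# Arbitrarily sparse `(k + 1)`-step interpolation sets

The construction of the library file `G`, with the exponents `(k + 2) ^ g (Nat.pair l i)` for an
arbitrary injective `g` in place of `(k + 2) ^ Nat.pair l i`.
-/

namespace Pool.Agent.KS6_49.NilI
open Function Topology Filter Finset

section
variable (g : ℕ → ℕ)

/-- the exponents -/
def wg (k : ℕ) (l : Fin (k + 1)) (i : ℕ) : ℕ := (k + 2) ^ g (Nat.pair l i)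

/-- the sequences -/
noncomputable def ag (k : ℕ) (l : Fin (k + 1)) (i : ℕ) : ℕ := BB k ^ wg g k l i

/-- the set -/
noncomputable def EG (k : ℕ) : Set ℕ := Set.range fun j : Fin (k + 1) → ℕ => ∑ l, ag g k l (j l)

variable {g}

lemma gpair_eq (hg : Injective g) {k : ℕ} {l l' : Fin (k + 1)} {i i' : ℕ}
    (h : g (Nat.pair l i) = g (Nat.pair l' i')) : l = l' ∧ i = i' := pair_eq (hg h)

lemma ag_inj (hg : Injective g) (k : ℕ) :
    Injective fun j : Fin (k + 1) → ℕ => ∑ l, ag g k l (j l) := by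
  intro j j' h
  funext l
  have := BB_ge k
  obtain ⟨l', e⟩ := sid (by unfold DD at this; omega) _ _ h l
  obtain ⟨rfl, e⟩ := gpair_eq hg (Nat.pow_right_injective (by omega) e)
  exact e

lemma EG_pos (k : ℕ) : ∀ n ∈ EG g k, 1 ≤ n := by
  rintro _ ⟨j, rfl⟩
  have := BB_ge k
  exact le_trans (Nat.one_le_pow _ _ (by unfold DD at this; omega))
    (single_le_sum (f := fun l => ag g k l (j l)) (fun _ _ => Nat.zero_le _) (mem_univ 0))

lemma exists_alpha_g (hg : Injective g) (k : ℕ) (s : ℕ → Fin 2) :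
    ∃ α : ℝ, ∀ n ∈ EG g k, (F0 (α * n ^ (k + 1)) + 1) / 2 = s n := by
  classical
  have hB := BB_ge k
  have hD : 0 < DD k := by unfold DD; omega
  let d : ℕ → Fin (BB k) := fun e =>
    if ∃ j : Fin (k + 1) → ℕ, ∑ l, wg g k l (j l) = e ∧ s (∑ l, ag g k l (j l)) = 0
    then ⟨DD k, by omega⟩ else ⟨0, by omega⟩
  refine ⟨Real.ofDigits d, ?_⟩
  rintro _ ⟨j, rfl⟩
  choose z δ h0 h1 e using frac_digits d
  let ex : (Fin (k + 1) → Fin (k + 1)) → ℕ := fun φ => ∑ l, wg g k (φ l) (j (φ l))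
  have key : ∀ φ j', ∑ l, wg g k l (j' l) = ex φ → Bijective φ ∧ j' = j := by
    intro φ j' h
    have := fun l => (sid (by omega) _ _ h.symm l).imp fun l' e => gpair_eq hg e
    refine ⟨Finite.surjective_iff_bijective.1 fun l => (this l).imp fun _ h => h.1, funext fun l => ?_⟩
    obtain ⟨l', h1, h2⟩ := this l
    rw [← h2, h1]
  have hd : ∀ φ, (d (ex φ) : ℝ) =
      if Bijective φ then (if s (∑ l, ag g k l (j l)) = 0 then (DD k : ℝ) else 0) else 0 := by
    intro φ
    simp only [d]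
    split_ifs with h2 h3 h4 h3 h4
    · rfl
    · obtain ⟨j', h5, h6⟩ := h2
      exact (h4 ((key φ j' h5).2 ▸ h6)).elim
    · obtain ⟨j', h5, h6⟩ := h2
      exact (h3 (key φ j' h5).1).elim
    · exact (h2 ⟨j, (h3.sum_comp fun l => wg g k l (j l)).symm, h4⟩).elim
    · simp
    · simp
  have hB' : (0 : ℝ) < BB k := by exact_mod_cast (by omega : 0 < BB k)
  have e1 : Real.ofDigits d * ((∑ l, ag g k l (j l) : ℕ) : ℝ) ^ (k + 1) =
      ((if s (∑ l, ag g k l (j l)) = 0 then 1 / 2 else 0) + (∑ φ, δ (ex φ)) / BB k) +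
        (∑ φ, z (ex φ) : ℤ) := by
    push_cast
    rw [Fintype.sum_pow, mul_sum]
    have : ∀ φ : Fin (k + 1) → Fin (k + 1), ∏ l, (ag g k (φ l) (j (φ l)) : ℝ) = BB k ^ ex φ := by
      intro φ
      simp only [ag, ex, Nat.cast_pow, prod_pow_eq_pow_sum]
    simp only [this, e, sum_add_distrib, add_div, ← sum_div, hd]
    rw [← sum_filter, sum_const, nsmul_eq_mul, add_comm]
    congr 2
    split_ifs
    · rw [div_eq_iff hB'.ne', BB, cc]
      push_cast
      ring
    · simp
  have p0 : 0 ≤ (∑ φ, δ (ex φ)) / BB k := div_nonneg (sum_nonneg fun _ _ => h0 _) hB'.le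
  have p1 : (∑ φ, δ (ex φ)) / BB k ≤ 1 / 6 := by
    have : ∑ φ, δ (ex φ) ≤ ((k + 1) ^ (k + 1) : ℕ) := by
      simpa using sum_le_card_nsmul univ (fun φ => δ (ex φ)) 1 (fun _ _ => h1 _)
    have h2 : ((6 * (k + 1) ^ (k + 1) : ℕ) : ℝ) ≤ BB k := by
      exact_mod_cast (by unfold DD at hB; omega)
    rw [div_le_iff₀ hB']
    push_cast at this h2
    linarith
  have hc := cos_ge p0 p1
  beta_reduce
  rw [e1, F0_int]
  split_ifs with h
  · rw [h, F0, mul_add, show 2 * Real.pi * (1 / 2) = Real.pi by ring, add_comm Real.pi,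
      Real.cos_add_pi, max_eq_left (min_le_of_right_le (by linarith))]
    simp
  · have : s (∑ l, ag g k l (j l)) = 1 := by omega
    rw [this, zero_add, F0, min_eq_left hc, max_eq_right (by norm_num)]
    simp

lemma expand_g (hg : Injective g) (k : ℕ) (f : ℕ → ℂ) (hf : ∃ R : ℝ, ∀ n ∈ EG g k, ‖f n‖ ≤ R) :
    ∃ (R : ℝ) (α : ℕ → Bool → ℝ), 0 ≤ R ∧ ∀ n ∈ EG g k, -R - R * Complex.I +
      ∑' j, tm R j (F0 (α j false * n ^ (k + 1))) (F0 (α j true * n ^ (k + 1))) = f n := by
  obtain ⟨R0, h0⟩ := hf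
  let R := |R0| + 1
  have hR : 0 < R := by positivity
  have ex : ∀ x : ℝ, ∃ d : ℕ → Fin 2, |x| ≤ R → 2 * R * Real.ofDigits d = x + R := by
    intro x
    by_cases hx : |x| ≤ R
    · have := abs_le.1 hx
      obtain ⟨d, -, hd⟩ := Real.ofDigits_SurjOn (b := 2) (by norm_num)
        (show (x + R) / (2 * R) ∈ Set.Icc (0 : ℝ) 1 from ⟨div_nonneg (by linarith) (by positivity),
          (div_le_one (by positivity)).2 (by linarith)⟩)
      exact ⟨d, fun _ => by rw [hd]; field_simp⟩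
    · exact ⟨0, fun h => (hx h).elim⟩
  choose d hd using ex
  choose α hα using exists_alpha_g hg k
  refine ⟨R, fun j b => α (fun n => d (bif b then (f n).im else (f n).re) j), hR.le,
    fun n hn => ?_⟩
  have b1 : ‖f n‖ ≤ R := (h0 n hn).trans (by linarith [le_abs_self R0])
  have s1 : ∀ x : ℝ, |x| ≤ R → HasSum (fun j => ((2 * R * (d x j * (2 ^ (j + 1))⁻¹) : ℝ) : ℂ))
      ((x + R : ℝ) : ℂ) := by
    intro x hx
    rw [← hd x hx]
    have := (Real.summable_ofDigitsTerm (digits := d x)).hasSum.mul_left (2 * R)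
    exact Complex.hasSum_ofReal.2 (by simpa [Real.ofDigitsTerm, Real.ofDigits] using this)
  have := (s1 _ ((Complex.abs_re_le_norm _).trans b1)).add
    ((s1 _ ((Complex.abs_im_le_norm _).trans b1)).mul_right Complex.I)
  simp only [tm, hα _ n hn, cond_true, cond_false]
  rw [this.tsum_eq]
  conv_rhs => rw [← Complex.re_add_im (f n)]
  push_cast
  ring

theorem interp_g (hg : Injective g) (k : ℕ) : Interp (k + 1) (EG g k) := by
  intro f hf
  obtain ⟨R, α, hR, e⟩ := expand_g hg k f hf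
  refine ⟨_, fun ε hε => ?_, e⟩
  have := tendstoUniformly_tsum_nat (sumu R) (f := fun j (n : ℕ) =>
    tm R j (F0 (α j false * n ^ (k + 1))) (F0 (α j true * n ^ (k + 1))))
    (fun j n => tm_le hR j (F0_le _) (F0_le _))
  obtain ⟨J, hJ⟩ := (Metric.tendstoUniformly_iff.1 this ε hε).exists
  let β : Fin J × Bool → ℝ := fun q => α q.1 q.2
  refine ⟨_, ⟨sys k β, (vec k β 0 : GG _ k ⧸ Gam _ k), fun y => -R - R * Complex.I +
    ∑ j : Fin J, tm R j (th (j, false) y) (th (j, true) y), continuous_const.add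
      (continuous_finsetSum _ fun j _ => (tm_cont R j).comp ((th_cont _).prodMk (th_cont _))),
    fun _ => rfl⟩, fun n _ => ?_⟩
  have h := (hJ n).le
  rw [dist_eq_norm, ← Fin.sum_univ_eq_sum_range (fun j =>
    tm R j (F0 (α j false * n ^ (k + 1))) (F0 (α j true * n ^ (k + 1))))] at h
  rw [add_sub_add_left_eq_sub]
  have e1 := fun q => th_orbit (k := k) β q n
  refine le_of_eq_of_le ?_ h
  congr 2
  exact sum_congr rfl fun j _ => congrArg₂ _ (e1 _) (e1 _)

theorem interpLim_g (hg : Injective g) (k : ℕ) : InterpLim (k + 1) (EG g k) := by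
  intro f hf
  obtain ⟨R, α, hR, e⟩ := expand_g hg k f hf
  have c0 : ∀ i, Continuous fun y : (lim k α).X => y.1 i := fun i =>
    (continuous_apply i).comp continuous_subtype_val
  refine ⟨lim k α, ⟨fun i => (vec k (fun q : Fin i × Bool => α q.1 q.2) 0 : GG _ k ⧸ Gam _ k),
    fun i => rfl⟩, fun y => -R - R * Complex.I +
      ∑' j, tm R j (th (Fin.last j, false) (y.1 (j + 1))) (th (Fin.last j, true) (y.1 (j + 1))),
    continuous_const.add (continuous_tsum (fun j => (tm_cont R j).comp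
      (((th_cont _).comp (c0 _)).prodMk ((th_cont _).comp (c0 _)))) (sumu R)
      (fun j y => tm_le hR j (th_le _ _) (th_le _ _))), fun n hn => ?_⟩
  rw [← e n hn]
  simp only [InvSeq.iter]
  congr 2
  funext j
  exact congrArg₂ _ (th_orbit _ _ n) (th_orbit _ _ n)


/-- The `(k + 1)`-st powers of the elements form an `I_0`-set. -/
theorem interp_pow_g (hg : Injective g) (k : ℕ) :
    Interp 1 ((fun n : ℕ => n ^ (k + 1)) '' EG g k) := by
  intro f hf
  obtain ⟨R0, h0⟩ := hf
  obtain ⟨R, α, hR, e⟩ := expand_g hg k (fun n => f (n ^ (k + 1)))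
    ⟨R0, fun n hn => h0 _ ⟨n, hn, rfl⟩⟩
  refine ⟨fun m : ℕ => -R - R * Complex.I +
      ∑' j, tm R j (F0 (α j false * (m : ℝ) ^ (0 + 1))) (F0 (α j true * (m : ℝ) ^ (0 + 1))),
    fun ε hε => ?_, ?_⟩
  · have := tendstoUniformly_tsum_nat (sumu R) (f := fun j (n : ℕ) =>
      tm R j (F0 (α j false * (n : ℝ) ^ (0 + 1))) (F0 (α j true * (n : ℝ) ^ (0 + 1))))
      (fun j n => tm_le hR j (F0_le _) (F0_le _))
    obtain ⟨J, hJ⟩ := (Metric.tendstoUniformly_iff.1 this ε hε).exists
    let β : Fin J × Bool → ℝ := fun q => α q.1 q.2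
    refine ⟨_, ⟨sys 0 β, (vec 0 β 0 : GG _ 0 ⧸ Gam _ 0), fun y => -R - R * Complex.I +
      ∑ j : Fin J, tm R j (th (j, false) y) (th (j, true) y), continuous_const.add
        (continuous_finsetSum _ fun j _ => (tm_cont R j).comp ((th_cont _).prodMk (th_cont _))),
      fun _ => rfl⟩, fun n _ => ?_⟩
    have h := (hJ n).le
    rw [dist_eq_norm, ← Fin.sum_univ_eq_sum_range (fun j =>
      tm R j (F0 (α j false * (n : ℝ) ^ (0 + 1))) (F0 (α j true * (n : ℝ) ^ (0 + 1))))] at h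
    rw [add_sub_add_left_eq_sub]
    have e1 := fun q => th_orbit (k := 0) β q n
    refine le_of_eq_of_le ?_ h
    congr 2
    exact sum_congr rfl fun j _ => congrArg₂ _ (e1 _) (e1 _)
  · rintro _ ⟨n, hn, rfl⟩
    rw [← e n hn]
    push_cast
    simp only [zero_add, pow_one]

/-- The elements below `N` come from the arguments with `g ≤ N`. -/
lemma EG_encard_le (hg : StrictMono g) (k N t : ℕ) (ht : ∀ m, g m ≤ N → m < t) :
    (EG g k ∩ Set.Icc 1 N).encard ≤ t ^ (k + 1) := by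
  classical
  have hB : 2 ≤ BB k := by
    have := BB_ge k
    unfold DD at this
    omega
  let emb : (Fin (k + 1) → Fin t) → ℕ := fun u => ∑ l, ag g k l ((u l : ℕ).unpair.2)
  have hsub : EG g k ∩ Set.Icc 1 N ⊆ Set.range emb := by
    rintro _ ⟨⟨j, rfl⟩, -, hN⟩
    have h1 : ∀ l : Fin (k + 1), Nat.pair l (j l) < t := by
      intro l
      apply ht
      have h2 : ag g k l (j l) ≤ N := by
        refine le_trans ?_ hN
        exact single_le_sum (f := fun l => ag g k l (j l)) (fun _ _ => Nat.zero_le _) (mem_univ l)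
      have h3 : g (Nat.pair l (j l)) ≤ wg g k l (j l) :=
        (Nat.lt_pow_self (by omega)).le
      have h4 : wg g k l (j l) ≤ ag g k l (j l) := (Nat.lt_pow_self (by omega)).le
      omega
    refine ⟨fun l => ⟨Nat.pair l (j l), h1 l⟩, ?_⟩
    simp only [emb, Nat.unpair_pair]
  refine (Set.encard_le_encard hsub).trans ?_
  rw [← Set.image_univ]
  refine (Set.encard_image_le _ _).trans ?_
  rw [Set.encard_univ, ENat.card_eq_coe_fintype_card, Fintype.card_fun, Fintype.card_fin,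
    Fintype.card_fin]
  push_cast
  exact le_rfl

lemma exists_sparse (k : ℕ) (ω : ℕ → ℕ) (hω : Tendsto ω atTop atTop) :
    ∃ g : ℕ → ℕ, StrictMono g ∧ ∀ N, (EG g k ∩ Set.Icc 1 N).encard ≤ ω N := by
  have h1 : ∀ m, ∃ M, ∀ N, M ≤ N → (m + 1) ^ (k + 1) ≤ ω N := fun m =>
    (tendsto_atTop_atTop.1 hω ((m + 1) ^ (k + 1)))
  choose M hM using h1
  let g : ℕ → ℕ := fun m => ∑ i ∈ range (m + 1), (M i + 1)
  have hg : StrictMono g := by
    apply strictMono_nat_of_lt_succ
    intro m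
    simp only [g]
    rw [sum_range_succ _ (m + 1)]
    omega
  have hgM : ∀ m, M m ≤ g m := by
    intro m
    simp only [g]
    rw [sum_range_succ]
    omega
  refine ⟨g, hg, fun N => ?_⟩
  obtain ⟨t, ht1, ht2⟩ : ∃ t, (∀ m, g m ≤ N → m < t) ∧ (t = 0 ∨ g (t - 1) ≤ N) := by
    by_cases h0 : g 0 ≤ N
    · let t := Nat.findGreatest (fun m => g m ≤ N) N
      refine ⟨t + 1, fun m hm => ?_, Or.inr ?_⟩
      · have h2 : m ≤ N := (hg.id_le m).trans hm
        exact Nat.lt_succ_of_le (Nat.le_findGreatest h2 hm)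
      · exact Nat.findGreatest_spec (P := fun m => g m ≤ N) (Nat.zero_le N) h0
    · refine ⟨0, fun m hm => ?_, Or.inl rfl⟩
      exact absurd ((hg.monotone (Nat.zero_le m)).trans hm) h0
  refine (EG_encard_le hg k N t ht1).trans ?_
  rcases ht2 with rfl | ht2
  · simp
  · rcases Nat.eq_zero_or_pos t with rfl | htp
    · simp
    · have h3 := hM (t - 1) N ((hgM _).trans ht2)
      rw [Nat.sub_add_cancel htp] at h3
      exact_mod_cast h3

end

end Pool.Agent.KS6_49.NilI
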