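import Pool.Agent.KS6_49.NilI.H

/-!
# Bohr almost periodic functions of `n ^ j` and cubes of dimension larger than `j`
-/

namespace Pool.Agent.KS6_49.NilI
open Function Topology Filter Finset


/-- the sign of a vertex of the cube -/
def sg {n : ℕ} (ω : Fin n → Bool) : ℤ := ∏ l, (bif ω l then 1 else -1 : ℤ)

lemma sg_top (n : ℕ) : sg (fun _ : Fin n => true) = 1 := by simp [sg]

lemma sg_flip {n : ℕ} (ω : Fin n → Bool) (l : Fin n) : sg (update ω l (!ω l)) = -sg ω := by
  unfold sg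
  rw [← Finset.mul_prod_erase _ _ (mem_univ l), ← Finset.mul_prod_erase (a := l) univ
    (fun l => (bif ω l then 1 else -1 : ℤ)) (mem_univ l), update_self]
  have h : ∏ x ∈ univ.erase l, (bif update ω l (!ω l) x then 1 else -1 : ℤ) =
      ∏ x ∈ univ.erase l, (bif ω x then 1 else -1 : ℤ) :=
    prod_congr rfl fun x hx => by rw [update_of_ne (ne_of_mem_erase hx)]
  rw [h]
  cases ω l <;> simp

lemma alt_sum {n j : ℕ} (hj : j < n) (p : Fin n → Bool → ℤ) :
    ∑ ω : Fin n → Bool, sg ω * (∑ l, p l (ω l)) ^ j = 0 := by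
  have h1 : ∀ ω : Fin n → Bool, sg ω * (∑ l, p l (ω l)) ^ j =
      ∑ φ : Fin j → Fin n, sg ω * ∏ i, p (φ i) (ω (φ i)) := by
    intro ω
    rw [Fintype.sum_pow, mul_sum]
  rw [sum_congr rfl fun ω _ => h1 ω, sum_comm]
  refine sum_eq_zero fun φ _ => ?_
  obtain ⟨l, hl⟩ : ∃ l, ∀ i, φ i ≠ l := by
    by_contra hc
    push Not at hc
    have : Surjective φ := hc
    have := Fintype.card_le_of_surjective φ this
    simp only [Fintype.card_fin] at this
    omega
  have hinv : Involutive fun ω : Fin n → Bool => update ω l (!ω l) := by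
    intro ω
    funext x
    by_cases hx : x = l
    · subst hx
      simp
    · simp [update_of_ne hx]
  have h2 := Equiv.sum_comp (Involutive.toPerm _ hinv)
    (fun ω : Fin n → Bool => sg ω * ∏ i, p (φ i) (ω (φ i)))
  have h3 : ∀ ω : Fin n → Bool, sg (Involutive.toPerm _ hinv ω) *
      ∏ i, p (φ i) (Involutive.toPerm _ hinv ω (φ i)) =
      -(sg ω * ∏ i, p (φ i) (ω (φ i))) := by
    intro ω
    show sg (update ω l (!ω l)) * ∏ i, p (φ i) (update ω l (!ω l) (φ i)) = _
    rw [sg_flip, neg_mul]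
    congr 2
    exact prod_congr rfl fun i _ => by rw [update_of_ne (hl i)]
  rw [sum_congr rfl fun ω _ => h3 ω, sum_neg_distrib] at h2
  omega

lemma top_eq {n j : ℕ} (hj : j < n) (p : Fin n → Bool → ℕ) :
    (((∑ l, p l true) ^ j : ℕ) : ℤ) =
      ∑ ω ∈ univ.erase (fun _ : Fin n => true), (((∑ l, p l (ω l)) ^ j : ℕ) : ℤ) * -sg ω := by
  have h := alt_sum hj (fun l b => (p l b : ℤ))
  rw [← add_sum_erase _ _ (mem_univ (fun _ : Fin n => true)), sg_top, one_mul] at h
  push_cast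
  rw [eq_comm, ← sub_eq_zero, ← neg_eq_zero]
  rw [← h]
  simp only [mul_neg, sum_neg_distrib]
  rw [neg_sub, sub_neg_eq_add]
  congr 1
  exact sum_congr rfl fun ω _ => by ring

/-- The values of a continuous function of finitely many points of a compact space are determined up
to a small error by finitely many colours of the points. -/
lemma col_compact {X W : Type} [TopologicalSpace X] [CompactSpace X] [T2Space X] [Finite W]
    (M : (W → X) → X) (hM : Continuous M) (O : Set (X × X)) (hO : IsOpen O)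
    (hd : ∀ x, (x, x) ∈ O) :
    ∃ (C : Type) (_ : Finite C) (col : X → C), ∀ u u' : W → X,
      (∀ w, col (u w) = col (u' w)) → (M u, M u') ∈ O := by
  let T : Set ((W → X) × (W → X)) := (fun p => (M p.1, M p.2)) ⁻¹' Oᶜ
  have hT : IsCompact T := (hO.isClosed_compl.preimage (by fun_prop)).isCompact
  have sep : ∀ p : T, ∃ (w : W) (U V : Set X), IsOpen U ∧
      IsOpen V ∧ p.1.1 w ∈ U ∧ p.1.2 w ∈ V ∧ Disjoint U V := by
    rintro ⟨⟨c, c'⟩, h3⟩
    by_contra hc
    have : c = c' := by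
      funext w
      by_contra hne
      obtain ⟨U, V, hU, hV, a, b, d⟩ := t2_separation hne
      exact hc ⟨w, U, V, hU, hV, a, b, d⟩
    subst this
    exact h3 (hd _)
  choose ω U V hU hV a b d using sep
  obtain ⟨t, ht⟩ := hT.elim_finite_subcover
    (fun p : T => {q | q.1 (ω p) ∈ U p ∧ q.2 (ω p) ∈ V p})
    (fun p => ((hU p).preimage (by fun_prop)).inter ((hV p).preimage (by fun_prop)))
    (fun q hq => Set.mem_iUnion.2 ⟨⟨q, hq⟩, a _, b _⟩)
  refine ⟨t → Prop, inferInstance, fun x p => x ∈ U p.1, fun c c' h => ?_⟩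
  by_contra hn
  obtain ⟨p, hp, h1, h2⟩ := Set.mem_iUnion₂.1 (ht (show (c, c') ∈ T from hn))
  have := congrFun (h (ω p)) ⟨p, hp⟩
  have h3 : c' (ω p) ∈ U p := cast this h1
  exact Set.disjoint_left.1 (d p) h3 h2

/-- In a commutative group with compact quotient, the point `g ^ (n ^ j) • x` has the cube
property. -/
lemma comm_cube {G : Type} [CommGroup G] [TopologicalSpace G] [IsTopologicalGroup G]
    (Γ : Subgroup G) [CompactSpace (G ⧸ Γ)] [T2Space (G ⧸ Γ)] (g : G) (x : G ⧸ Γ)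
    (O : Set ((G ⧸ Γ) × (G ⧸ Γ))) (hO : IsOpen O) (hd : ∀ x, (x, x) ∈ O) {n j : ℕ} (hj : j < n) :
    ∃ (C : Type) (_ : Finite C) (col : ℕ → C), ∀ p q : Fin n → Bool → ℕ,
      (∀ w : Fin n → Bool, w ≠ (fun _ => true) →
        col (∑ l, p l (w l)) = col (∑ l, q l (w l))) →
      (g ^ ((∑ l, p l true) ^ j) • x, g ^ ((∑ l, q l true) ^ j) • x) ∈ O := by
  classical
  let W := {w : Fin n → Bool // w ≠ fun _ => true}
  let M : (W → G ⧸ Γ) → G ⧸ Γ := fun u => (∏ w : W, u w ^ (-sg w.1)) * x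
  have hM : Continuous M := by
    refine Continuous.mul ?_ continuous_const
    exact continuous_finsetProd _ fun w _ => (continuous_apply w).zpow _
  obtain ⟨C, hC, col, hcol⟩ := col_compact M hM O hO hd
  refine ⟨C, hC, fun n => col ((g : G ⧸ Γ) ^ (n ^ j)), fun p q h => ?_⟩
  have key : ∀ p : Fin n → Bool → ℕ, g ^ ((∑ l, p l true) ^ j) • x =
      M (fun w : W => (g : G ⧸ Γ) ^ ((∑ l, p l (w.1 l)) ^ j)) := by
    intro p
    have h1 : g ^ ((∑ l, p l true) ^ j) • x = (g : G ⧸ Γ) ^ ((∑ l, p l true) ^ j) * x := by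
      obtain ⟨y, rfl⟩ := QuotientGroup.mk_surjective x
      rfl
    rw [h1]
    simp only [M]
    congr 1
    rw [← zpow_natCast, top_eq hj p]
    have h2 : ∀ w : W, ((g : G ⧸ Γ) ^ ((∑ l, p l (w.1 l)) ^ j)) ^ (-sg w.1) =
        (g : G ⧸ Γ) ^ ((((∑ l, p l (w.1 l)) ^ j : ℕ) : ℤ) * -sg w.1) := by
      intro w
      rw [zpow_mul, zpow_natCast]
    rw [prod_congr rfl fun w _ => h2 w]
    have h3 : ∀ (s : Finset (Fin n → Bool)) (e : (Fin n → Bool) → ℤ),
        (g : G ⧸ Γ) ^ (∑ w ∈ s, e w) = ∏ w ∈ s, (g : G ⧸ Γ) ^ e w := by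
      intro s e
      induction s using Finset.induction_on with
      | empty => simp
      | insert a s ha ih => rw [sum_insert ha, prod_insert ha, zpow_add, ih]
    rw [h3]
    exact (Finset.prod_subtype (univ.erase fun _ : Fin n => true) (by simp)
      (fun w : Fin n → Bool => (g : G ⧸ Γ) ^ ((((∑ l, p l (w l)) ^ j : ℕ) : ℤ) * -sg w)))
  rw [key, key]
  exact hcol _ _ fun w => h w.1 w.2

theorem Nilseq.det_pow {k j : ℕ} (hj : j ≤ k) {ψ : ℕ → ℂ} (h : Nilseq 1 ψ) :
    Det k (fun n => ψ (n ^ j)) := by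
  intro ε hε
  obtain ⟨φ, ⟨S, x, F, hF, eF⟩, hφ⟩ := h (ε / 4) (by positivity)
  have hcomm : ∀ a b : S.G, a * b = b * a := by
    intro a b
    have h1 := S.nil
    rw [Subgroup.lowerCentralSeries_succ, Subgroup.lowerCentralSeries_zero,
      Subgroup.commutator_eq_bot_iff_le_centralizer] at h1
    exact (Subgroup.mem_centralizer_iff.1 (h1 (Subgroup.mem_top a)) b (Subgroup.mem_top b)).symm
  letI cg : CommGroup S.G := { S.grp with mul_comm := hcomm }
  haveI : CompactSpace (S.G ⧸ S.Γ) := S.cpt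
  obtain ⟨C, hC, col, hcol⟩ := comm_cube (G := S.G) S.Γ S.g x {z | ‖F z.1 - F z.2‖ < ε / 4}
    (isOpen_lt (by fun_prop) continuous_const) (by simp; positivity) (n := k + 1) (j := j)
    (by omega)
  refine ⟨C, hC, col, fun p q h1 h2 h3 => ?_⟩
  have h5 := hcol p q h1
  simp only [Set.mem_ofPred_eq] at h5
  have h2' := Nat.one_le_pow j _ h2
  have h3' := Nat.one_le_pow j _ h3
  have h6 := hφ _ h2'
  have h7 := hφ _ h3'
  have h8 : ‖φ ((∑ l, p l true) ^ j) - φ ((∑ l, q l true) ^ j)‖ < ε / 4 := by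
    rw [eF, eF]
    exact h5
  rw [norm_sub_rev] at h7
  have := norm_sub_le_norm_sub_add_norm_sub (ψ ((∑ l, p l true) ^ j)) (φ ((∑ l, p l true) ^ j))
    (ψ ((∑ l, q l true) ^ j))
  have := norm_sub_le_norm_sub_add_norm_sub (φ ((∑ l, p l true) ^ j)) (φ ((∑ l, q l true) ^ j))
    (ψ ((∑ l, q l true) ^ j))
  linarith

end Pool.Agent.KS6_49.NilI
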